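import Mathlib
import Pool.Agent.Lib.MP_d94893_lc.Defs
import Pool.Agent.Lib.MP_d94893_lc.Main

set_option autoImplicit false

open Pool.Agent.Lib.MP_d94893_lc

namespace Pool.Agent.Results.MP_d94893_lc.NotOptimal

/-- For every number `m ≥ 2` of rays and every detection probability `p ∈ (0, 1)` some trajectory
has competitive ratio strictly below the infimum over all cyclic monotone trajectories. -/
theorem result :
    ∀ (m : ℕ), 2 ≤ m → ∀ (p : ℝ), 0 < p → p < 1 →
      ∃ T : ℝ → EuclideanSpace ℝ (Fin m), IsTrajectory T ∧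
        ratio p T <
          ⨅ (T' : ℝ → EuclideanSpace ℝ (Fin m)) (_ : IsCyclicMonotone T'), ratio p T' :=
  fun _ hm p hp0 hp1 => main (by omega) p hp0 hp1

end Pool.Agent.Results.MP_d94893_lc.NotOptimal
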